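import Pool.Agent.Lib.MP_305fdd_al.VF.R.p_ret

/-! [VF R] the rank drops: assembly of `S_R`. -/

set_option autoImplicit false

namespace Pool.Agent.VF

open Pool.Agent.FrT

theorem torsionfree_of_free {N : Type} [Group N] {r : ℕ} (h : Nonempty (N ≃* FreeGroup (Fin r)))
    (x : N) (hx : IsOfFinOrder x) : x = 1 := by
  obtain ⟨e⟩ := h
  have h1 : IsOfFinOrder (e x) := e.toMonoidHom.isOfFinOrder hx
  obtain ⟨n, hn, hn'⟩ := isOfFinOrder_iff_pow_eq_one.1 h1
  have h2 : e x = 1 := (pow_eq_one_iff_left hn.ne').1 hn'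
  exact e.injective (by rw [h2, map_one])

theorem R_of (h1 : S_ret) (h2 : S_rank) : S_R := by
  intro V _ N _ _ r hN W _ X u v h x _
  have hSC : ∀ g : V, g ∈ N → ∀ k : V, k * g * k⁻¹ ∈ SC V u v → g = 1 := by
    intro g hg k hk
    have hN' : k * g * k⁻¹ ∈ N := Subgroup.Normal.conj_mem inferInstance g hg k
    have := h.fin
    have h3 : IsOfFinOrder (⟨k * g * k⁻¹, hk⟩ : SC V u v) := isOfFinOrder_of_finite _
    have h4 : IsOfFinOrder (k * g * k⁻¹) := (SC V u v).subtype.isOfFinOrder h3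
    have h5 : IsOfFinOrder (⟨k * g * k⁻¹, hN'⟩ : N) := by
      rw [isOfFinOrder_iff_pow_eq_one] at h4 ⊢
      obtain ⟨n, hn, hn'⟩ := h4
      exact ⟨n, hn, Subtype.ext hn'⟩
    have h6 := congrArg Subtype.val (torsionfree_of_free hN _ h5)
    have h7 : k * g * k⁻¹ = 1 := h6
    exact conj_eq_one_iff.1 h7
  let S := Sst (u := u) (v := v) h.act x
  have hcomm : ∀ (g : N) (y : W), g • y = (g : V) • y := fun g y => rfl
  obtain ⟨c, hc⟩ := h1 N W X (Orb V u v) x h.tree (fun g y z => h.act g y z)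
    (by
      rintro g y z ⟨k, hk⟩
      refine ⟨g * k, ?_⟩
      rw [hcomm, hcomm, mul_smul, mul_smul]
      have := congrArg (Sym2.map (fun x => (g : V) • x)) hk
      simpa using this)
    (by
      rintro g y z _ ⟨k, hk⟩ hy hz
      rw [hcomm] at hy hz
      apply Subtype.ext
      refine hSC g g.2 k⁻¹ ?_
      have key : ∀ a b : W, (g : V) • a = a → (g : V) • b = b → k • u = a → k • v = b →
          k⁻¹ * g * k⁻¹⁻¹ ∈ SC V u v := by
        intro a b ha hb hka hkb
        rw [inv_inv]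
        refine ⟨MulAction.mem_stabilizer_iff.2 ?_, MulAction.mem_stabilizer_iff.2 ?_⟩
        · rw [mul_smul, mul_smul, hka, ha, ← hka, inv_smul_smul]
        · rw [mul_smul, mul_smul, hkb, hb, ← hkb, inv_smul_smul]
      rw [Sym2.eq_iff] at hk
      rcases hk with ⟨e1, e2⟩ | ⟨e1, e2⟩
      · exact key y z hy hz e1.symm e2.symm
      · exact key z y hz hy e2.symm e1.symm)
    (S.subgroupOf N) (fun g => Iff.rfl)
  have hne : S.subgroupOf N ≠ ⊤ := by
    intro htop
    obtain ⟨k, hk, hk'⟩ := h.mov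
    have h3 : (⟨k, hk⟩ : N) ∈ S.subgroupOf N := by rw [htop]; trivial
    exact hk' x h3
  obtain ⟨r', hr', ⟨e⟩⟩ := h2 N r hN (S.subgroupOf N) c hc hne
  refine ⟨r', hr', ⟨MulEquiv.trans ?_ e⟩⟩
  exact
    { toFun := fun a => ⟨⟨((a : S) : V), a.2⟩, (a : S).2⟩
      invFun := fun a => ⟨⟨((a : N) : V), a.2⟩, (a : N).2⟩
      left_inv := fun a => rfl
      right_inv := fun a => rfl
      map_mul' := fun a b => rfl }

end Pool.Agent.VF
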