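import Pool.Agent.Lib.MP_305fdd_al.VF.Defs

/-!
# MP_305fdd_al, block VF, part (R): the rank of the free subgroup drops (statements)

`S_ret` (piece R1), `S_rank` (piece R2); `S_R` of `VF/Defs.lean` follows from the two (`VF/R/Main.lean`).
-/

set_option autoImplicit false

namespace Pool.Agent.VF

/-- [VF R1] **Retraction onto the stabiliser of a component.**  `G` acts on the tree `X`, `O` is a
`G`-invariant set of edges and `G` acts freely on the *directed* edges of `O`.  `M` is the stabiliser of
the component of `x₀` in `X` without `O`.  Then there is a retraction `G → M`.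

PROOF.  Let `cl y` be the component (`SimpleGraph.ConnectedComponent`) of `y` in `X.deleteEdges O`; `G` acts
on components: `cl y = cl z → cl (g • y) = cl (g • z)` (map a walk, as `Rch.smul` in `Fr/T/BS.lean`).
Call `p = (y, z)` *good* if `X.Adj y z` and `s(y, z) ∈ O`; `g • p` is good if `p` is (use `g` and `g⁻¹`).
(1) Function `s : W → W → M` with `s (m • y) (m • z) = m * s y z` for all `m : M` and good `(y, z)`: choose a
representative in each `M`-orbit of `W × W` (`Quotient.out` for `MulAction.orbitRel M (W × W)`), and let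
`s y z` be some `m` with `m • rep = (y, z)`.  Both `m * s y z` and `s (m • y) (m • z)` carry `rep` to
`(m • y, m • z)`, so they differ by an element fixing the good pair `rep`: equal (freeness).
(2) For a component `c` let `n c : G` be `1` if `c = cl x₀`; otherwise, if `c = cl (g • x₀)` for some `g`, such a
`g`; otherwise `1`.  Say `c` is *hit* if `c = cl (g • x₀)` for some `g`.  `mu g y := (n (cl (g • y)))⁻¹ * g *
n (cl y)` if `cl y` is hit; it lies in `M` (it maps `x₀` into the component of `x₀`).  If `cl y` is not hit,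
`mu g y := 1`.  `cl y` is hit iff `cl (g • y)` is hit.  Cocycle rule: `mu (g * g') y = mu g (g' • y) * mu g' y`;
`mu m x₀ = m` for `m ∈ M`; `mu g y` depends only on `cl y`.
(3) `s' y z := s ((n (cl y))⁻¹ • y) ((n (cl y))⁻¹ • z)` if `cl y` is hit, else `1`.  For good `(y, z)`:
`s' (g • y) (g • z) = mu g y * s' y z` (because `(n (cl (g • y)))⁻¹ * g = mu g y * (n (cl y))⁻¹`, and (1)).
(4) `c y z := s' y z * (s' z y)⁻¹` if `s(y, z) ∈ O`, else `1`.  `c z y = (c y z)⁻¹`, so `potG` (`Fr/T/BS.lean`,
target group `M`) gives `P : W → M` with `P z = P y * c y z` for adjacent `y`, `z`.  `P` is constant on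
components.
(5) `r g y := P (g • y) * mu g y * (P y)⁻¹` satisfies `r g y = r g z` for adjacent `y`, `z`: outside `O` all
three factors agree; on `O`: `P y * s' y z = P z * s' z y` and `r g y = (P (g • y) * s' (g • y) (g • z)) *
(P y * s' y z)⁻¹` is symmetric in `y`, `z` (`(z, y)` is good too).  The tree is connected, so `r g := r g x₀`
is `r g y` for all `y`.
(6) `r (g * g') = r g (g' • x₀) * r g' x₀ = r g * r g'`.  For `m ∈ M`, `r m = P (m • x₀) * m * (P x₀)⁻¹ =
P x₀ * m * (P x₀)⁻¹`.  The wanted retraction is `g ↦ (P x₀)⁻¹ * r g * P x₀`. -/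
def S_ret : Prop :=
  ∀ (G : Type) [Group G] (W : Type) [MulAction G W] (X : SimpleGraph W) (O : Set (Sym2 W)) (x₀ : W),
    X.IsTree → (∀ (g : G) (y z : W), X.Adj y z → X.Adj (g • y) (g • z)) →
    (∀ (g : G) (y z : W), s(y, z) ∈ O → s(g • y, g • z) ∈ O) →
    (∀ (g : G) (y z : W), X.Adj y z → s(y, z) ∈ O → g • y = y → g • z = z → g = 1) →
    ∀ M : Subgroup G, (∀ g : G, g ∈ M ↔ (X.deleteEdges O).Reachable (g • x₀) x₀) →
      ∃ c : G →* M, ∀ m : M, c m = m

/-- [VF R2] **A proper retract of a free group of rank `r` is free of smaller rank.**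

PROOF.  We may replace `N` by `FreeGroup (Fin r)` or simply work in `N`.  `M` is free by Nielsen-Schreier
(`IsFreeGroup.toFreeGroup`, `subgroupIsFreeOfIsFree`; `N` is a free group as it is isomorphic to one) and
finitely generated, being the image of `N` under `c` (surjective because `c m = m`).  So `M ≃*
FreeGroup (Fin r')` (see the proof at lines 100-110 of `Lib/MP_305fdd_al/Corank.lean`: `finite_of_fg`,
`Finite.exists_equiv_fin`, `FreeGroup.freeGroupCongr`).  Counting homomorphisms to `C2`
(`card_hom_fin` in `Corank.lean`): precomposition with the surjection `c` is injective on homomorphisms, so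
`2 ^ r' ≤ 2 ^ r` and `r' ≤ r`.  If `r' = r` then `M ≃* N`; `N` is f.g. and residually finite
(`FreeGroup` residually finite: used in `VF`, `Corank`, `F2X`; search the library for
`ResiduallyFinite (FreeGroup`), `SameFiniteQuotients N M` holds and `injective_of_surj` (`Genus.lean`) shows
that `c` is injective; then `c (c n) = c n` gives `c n = n`, so `n ∈ M` for all `n`: `M = ⊤`, contradiction.
-/
def S_rank : Prop :=
  ∀ (N : Type) [Group N] (r : ℕ), Nonempty (N ≃* FreeGroup (Fin r)) →
    ∀ (M : Subgroup N) (c : N →* M), (∀ m : M, c m = m) → M ≠ ⊤ →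
      ∃ r' < r, Nonempty (M ≃* FreeGroup (Fin r'))

end Pool.Agent.VF
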