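import Pool.Agent.Lib.MP_305fdd_al.VF.R.Stm
import Pool.Agent.Lib.MP_305fdd_al.Corank
import Pool.Agent.Lib.MP_305fdd_al.Genus
import Pool.Agent.Lib.MP_305fdd_al.RF

/-!
# MP_305fdd_al, block VF, part (R): proof of [VF R2]
-/

set_option autoImplicit false

namespace Pool.Agent.VF

open Pool.Agent.MP_305fdd_al Pool.Agent.Lib.MP_305fdd_al

theorem p_rank : S_rank := by
  rintro N _ r ⟨e⟩ M c hc hM
  have hN : IsFreeGroup N := IsFreeGroup.ofMulEquiv e.symm
  have hcs : Function.Surjective c := fun m => ⟨m, hc m⟩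
  have hfgN : Group.FG N := Group.fg_of_surjective (f := e.symm.toMonoidHom) e.symm.surjective
  have hfgM : Group.FG M := Group.fg_of_surjective (f := c) hcs
  have e1 : M ≃* FreeGroup (IsFreeGroup.Generators M) := IsFreeGroup.toFreeGroup _
  have hfg' : Group.FG (FreeGroup (IsFreeGroup.Generators M)) :=
    Group.fg_of_surjective (f := e1.toMonoidHom) e1.surjective
  have hfin : Finite (IsFreeGroup.Generators M) := finite_of_fg hfg'
  obtain ⟨a, ⟨e2⟩⟩ := Finite.exists_equiv_fin (IsFreeGroup.Generators M)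
  have e3 : M ≃* FreeGroup (Fin a) := e1.trans (FreeGroup.freeGroupCongr e2)
  let ψ : FreeGroup (Fin r) →* FreeGroup (Fin a) :=
    e3.toMonoidHom.comp (c.comp e.symm.toMonoidHom)
  have hψ : Function.Surjective ψ := e3.surjective.comp (hcs.comp e.symm.surjective)
  have har : a ≤ r := (corank_free r a).1 ⟨ψ, hψ⟩
  rcases har.lt_or_eq with h | h
  · exact ⟨a, h, ⟨e3⟩⟩
  · exfalso
    apply hM
    have e4 : FreeGroup (Fin a) ≃* FreeGroup (Fin r) := FreeGroup.freeGroupCongr (finCongr h)
    have hinj : Function.Injective (e4.toMonoidHom.comp ψ) :=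
      injective_of_surj (SameFiniteQuotients.refl (FreeGroup (Fin r))) (e4.toMonoidHom.comp ψ)
        (e4.surjective.comp hψ)
    rw [eq_top_iff]
    intro n _
    have h1 : (e4.toMonoidHom.comp ψ) (e (c n)) = (e4.toMonoidHom.comp ψ) (e n) := by
      change e4 (e3 (c (e.symm (e (c n))))) = e4 (e3 (c (e.symm (e n))))
      rw [e.symm_apply_apply, e.symm_apply_apply, hc]
    have h2 : ((c n : M) : N) = n := e.injective (hinj h1)
    rw [← h2]
    exact (c n).2

end Pool.Agent.VF
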