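import Pool.Agent.Lib.MP_305fdd_al.VF.R.Stm

/-! [VF R1] retraction onto the stabiliser of a component. -/

set_option autoImplicit false

namespace Pool.Agent.VF

open Pool.Agent.FrT

theorem p_ret : S_ret := by
  classical
  intro G _ W _ X O x₀ hX hact hO hfree M hM
  -- components
  let Y := X.deleteEdges O
  let cl : W → Y.ConnectedComponent := fun y => Y.connectedComponentMk y
  have hcl : ∀ x y, cl x = cl y ↔ Y.Reachable x y := fun x y => SimpleGraph.ConnectedComponent.eq
  have hO' : ∀ (g : G) (y z : W), s(g • y, g • z) ∈ O ↔ s(y, z) ∈ O := by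
    intro g y z
    refine ⟨fun h => ?_, hO g y z⟩
    have := hO g⁻¹ _ _ h
    rwa [inv_smul_smul, inv_smul_smul] at this
  have hYact : ∀ (g : G) (y z : W), Y.Adj y z → Y.Adj (g • y) (g • z) := by
    intro g y z h
    rw [SimpleGraph.deleteEdges_adj] at h ⊢
    exact ⟨hact g y z h.1, fun h' => h.2 ((hO' g y z).1 h')⟩
  have hR : ∀ (g : G) (y z : W), Y.Reachable y z → Y.Reachable (g • y) (g • z) := by
    intro g y z h
    obtain ⟨w⟩ := h
    induction w with
    | nil => exact SimpleGraph.Reachable.refl _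
    | @cons a b c hab w ih => exact (hYact g a b hab).reachable.trans ih
  have hclg : ∀ (g : G) (y z : W), cl y = cl z → cl (g • y) = cl (g • z) := by
    intro g y z h
    rw [hcl] at h ⊢
    exact hR g y z h
  have hclM : ∀ g : G, g ∈ M ↔ cl (g • x₀) = cl x₀ := by
    intro g
    rw [hM, hcl]
  -- good pairs
  let good : W → W → Prop := fun y z => X.Adj y z ∧ s(y, z) ∈ O
  have hgood : ∀ (g : G) (y z : W), good y z → good (g • y) (g • z) := by
    intro g y z h
    exact ⟨hact g y z h.1, hO g y z h.2⟩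
  have hgsymm : ∀ y z, good y z → good z y := by
    intro y z h
    exact ⟨h.1.symm, by rw [Sym2.eq_swap]; exact h.2⟩
  -- (1)
  obtain ⟨s, hs⟩ : ∃ s : W → W → M, ∀ (m : M) (y z : W), good y z →
      s (m • y) (m • z) = m * s y z := by
    let q : W × W → W × W := fun p =>
      Quotient.out (Quotient.mk (MulAction.orbitRel M (W × W)) p)
    have hq : ∀ p, ∃ m : M, m • q p = p := by
      intro p
      have h : (MulAction.orbitRel M (W × W)) p (q p) :=
        (MulAction.orbitRel M (W × W)).symm (Quotient.exact (Quotient.out_eq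
          (Quotient.mk (MulAction.orbitRel M (W × W)) p)))
      exact h
    choose t ht using hq
    have hqm : ∀ (m : M) (p : W × W), q (m • p) = q p := by
      intro m p
      have h : Quotient.mk (MulAction.orbitRel M (W × W)) (m • p) =
          Quotient.mk (MulAction.orbitRel M (W × W)) p := Quotient.sound ⟨m, rfl⟩
      show Quotient.out _ = Quotient.out _
      rw [h]
    refine ⟨fun y z => t (y, z), ?_⟩
    intro m y z h
    have h1 : t (m • (y, z)) • q (y, z) = m • (y, z) := by
      have := ht (m • (y, z))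
      rwa [hqm] at this
    have h2 : (m * t (y, z)) • q (y, z) = m • (y, z) := by rw [mul_smul, ht]
    have h3 : ((t (m • (y, z)))⁻¹ * (m * t (y, z))) • q (y, z) = q (y, z) := by
      rw [mul_smul, h2]
      exact inv_smul_eq_iff.2 h1.symm
    have h4 : good (q (y, z)).1 (q (y, z)).2 := by
      have h5 : q (y, z) = (t (y, z))⁻¹ • (y, z) := by
        exact (inv_smul_eq_iff.2 (ht (y, z)).symm).symm
      have h6 := hgood ((t (y, z))⁻¹ : M) y z h
      rw [h5]
      exact h6
    have h5 := hfree (((t (m • (y, z)))⁻¹ * (m * t (y, z)) : M) : G) (q (y, z)).1 (q (y, z)).2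
      h4.1 h4.2 (congrArg Prod.fst h3) (congrArg Prod.snd h3)
    have h6 : (t (m • (y, z)))⁻¹ * (m * t (y, z)) = 1 := Subtype.ext h5
    exact inv_mul_eq_one.1 h6
  -- (2)
  let hit : Y.ConnectedComponent → Prop := fun c => ∃ g : G, cl (g • x₀) = c
  obtain ⟨n, hn0, hn⟩ : ∃ n : Y.ConnectedComponent → G, n (cl x₀) = 1 ∧
      ∀ c, hit c → cl (n c • x₀) = c := by
    refine ⟨fun c => if c = cl x₀ then 1 else if h : hit c then h.choose else 1, if_pos rfl, ?_⟩
    intro c h
    by_cases hc : c = cl x₀
    · simp only [if_pos hc, one_smul]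
      exact hc.symm
    · simp only [if_neg hc, dif_pos h]
      exact h.choose_spec
  have hhit : ∀ (g : G) (y : W), hit (cl y) → hit (cl (g • y)) := by
    rintro g y ⟨k, hk⟩
    exact ⟨g * k, by rw [mul_smul]; exact hclg g _ _ hk⟩
  have hhit' : ∀ (g : G) (y : W), hit (cl (g • y)) → hit (cl y) := by
    intro g y h
    have := hhit g⁻¹ _ h
    rwa [inv_smul_smul] at this
  have hmem : ∀ (g : G) (y : W), hit (cl y) → (n (cl (g • y)))⁻¹ * g * n (cl y) ∈ M := by
    intro g y h
    rw [hclM, mul_smul, mul_smul]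
    have h1 := hclg g _ _ (hn _ h)
    have h2 := hn _ (hhit g y h)
    have h3 := hclg (n (cl (g • y)))⁻¹ _ _ (h1.trans h2.symm)
    rw [inv_smul_smul] at h3
    exact h3
  let mu : G → W → M := fun g y => if h : hit (cl y) then ⟨_, hmem g y h⟩ else 1
  have hmu : ∀ (g : G) (y : W), hit (cl y) → (mu g y : G) = (n (cl (g • y)))⁻¹ * g * n (cl y) := by
    intro g y h
    simp only [mu, dif_pos h]
  have hmu' : ∀ (g : G) (y : W), ¬ hit (cl y) → mu g y = 1 := by
    intro g y h
    simp only [mu, dif_neg h]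
  have hmuc : ∀ (g : G) (y z : W), cl y = cl z → mu g y = mu g z := by
    intro g y z h
    by_cases hy : hit (cl y)
    · have hz : hit (cl z) := h ▸ hy
      apply Subtype.ext
      rw [hmu g y hy, hmu g z hz, h, hclg g y z h]
    · have hz : ¬ hit (cl z) := h ▸ hy
      rw [hmu' g y hy, hmu' g z hz]
  have hcoc : ∀ (g g' : G) (y : W), mu (g * g') y = mu g (g' • y) * mu g' y := by
    intro g g' y
    by_cases hy : hit (cl y)
    · apply Subtype.ext
      rw [Subgroup.coe_mul, hmu _ y hy, hmu g (g' • y) (hhit g' y hy), hmu g' y hy, mul_smul]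
      group
    · rw [hmu' _ y hy, hmu' g' y hy, hmu' g _ (fun h => hy (hhit' g' y h)), mul_one]
  -- (3)
  let s' : W → W → M := fun y z =>
    if hit (cl y) then s ((n (cl y))⁻¹ • y) ((n (cl y))⁻¹ • z) else 1
  have hs' : ∀ (g : G) (y z : W), good y z → s' (g • y) (g • z) = mu g y * s' y z := by
    intro g y z h
    by_cases hy : hit (cl y)
    · simp only [s', if_pos hy, if_pos (hhit g y hy)]
      have h1 := hs (mu g y) ((n (cl y))⁻¹ • y) ((n (cl y))⁻¹ • z) (hgood _ _ _ h)
      rw [← h1]
      have h2 : ∀ x : W, (n (cl (g • y)))⁻¹ • g • x = (mu g y) • (n (cl y))⁻¹ • x := by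
        intro x
        rw [Subgroup.smul_def, hmu g y hy, ← mul_smul, ← mul_smul]
        congr 1
        group
      rw [h2, h2]
    · simp only [s', if_neg hy, if_neg (fun h => hy (hhit' g y h)), hmu' g y hy, mul_one]
  -- (4)
  let c : W → W → M := fun y z => if s(y, z) ∈ O then s' y z * (s' z y)⁻¹ else 1
  obtain ⟨P, hP⟩ := potG hX c (by
    intro y z _
    simp only [c]
    by_cases h : s(y, z) ∈ O
    · have h' : s(z, y) ∈ O := by rw [Sym2.eq_swap]; exact h
      rw [if_pos h, if_pos h']
      group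
    · have h' : s(z, y) ∉ O := by rw [Sym2.eq_swap]; exact h
      rw [if_neg h, if_neg h', inv_one])
  have hPO : ∀ y z, good y z → P y * s' y z = P z * s' z y := by
    intro y z h
    have h1 := hP y z h.1
    simp only [c, if_pos h.2] at h1
    rw [h1]
    group
  have hPn : ∀ y z, X.Adj y z → s(y, z) ∉ O → P z = P y := by
    intro y z h h'
    have h1 := hP y z h
    simp only [c, if_neg h', mul_one] at h1
    exact h1
  have hPc : ∀ y z, Y.Reachable y z → P z = P y := by
    rintro y z ⟨w⟩
    induction w with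
    | nil => rfl
    | @cons a b d hab w ih =>
      rw [SimpleGraph.deleteEdges_adj] at hab
      rw [ih, hPn a b hab.1 hab.2]
  -- (5)
  let r : G → W → M := fun g y => P (g • y) * mu g y * (P y)⁻¹
  have hr : ∀ (g : G) (y z : W), X.Adj y z → r g y = r g z := by
    intro g y z h
    simp only [r]
    by_cases h' : s(y, z) ∈ O
    · have hg : good y z := ⟨h, h'⟩
      have e1 : P (g • y) * mu g y * (P y)⁻¹ =
          (P (g • y) * s' (g • y) (g • z)) * (P y * s' y z)⁻¹ := by
        rw [hs' g y z hg]
        group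
      have e2 : P (g • z) * mu g z * (P z)⁻¹ =
          (P (g • z) * s' (g • z) (g • y)) * (P z * s' z y)⁻¹ := by
        rw [hs' g z y (hgsymm _ _ hg)]
        group
      rw [e1, e2, hPO y z hg, hPO (g • y) (g • z) (hgood g y z hg)]
    · have h1 : cl y = cl z := by
        rw [hcl]
        exact SimpleGraph.Adj.reachable (by rw [SimpleGraph.deleteEdges_adj]; exact ⟨h, h'⟩)
      rw [hmuc g y z h1, hPn y z h h', hPn (g • y) (g • z) (hact g y z h)
        (fun h2 => h' ((hO' g y z).1 h2))]
  have hr' : ∀ (g : G) (y z : W), r g y = r g z := by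
    intro g y z
    obtain ⟨w⟩ := hX.isConnected.preconnected y z
    induction w with
    | nil => rfl
    | @cons a b d hab w ih => rw [hr g a b hab, ih]
  have hrmul : ∀ g g' : G, r (g * g') x₀ = r g x₀ * r g' x₀ := by
    intro g g'
    rw [hr' g x₀ (g' • x₀)]
    simp only [r, hcoc, mul_smul]
    group
  have hrM : ∀ m : M, r m x₀ = P x₀ * m * (P x₀)⁻¹ := by
    intro m
    have h1 : cl ((m : G) • x₀) = cl x₀ := (hclM m).1 m.2
    have h2 : P ((m : G) • x₀) = P x₀ := hPc _ _ ((hcl _ _).1 h1.symm)
    have h3 : mu m x₀ = m := by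
      apply Subtype.ext
      rw [hmu _ x₀ ⟨1, by rw [one_smul]⟩, h1, hn0]
      group
    simp only [r, h2, h3]
  refine ⟨MonoidHom.mk' (fun g => (P x₀)⁻¹ * r g x₀ * P x₀) ?_, ?_⟩
  · intro g g'
    rw [hrmul]
    group
  · intro m
    rw [MonoidHom.mk'_apply, hrM]
    group

end Pool.Agent.VF
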